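import Pool.Agent.Q277.RB

/-!
# Sparse classes of bounded reduced bandwidth have polynomial expansion

Let `S` be a model of an `r`-shallow minor `H` in `G`. Consider the first time some class `P` of the
reduction sequence meets more than `z` branch sets. Only few classes are within red distance
`2 r + 1` of `P`. The vertices in the small ones of these classes, and the vertices that are complete
to one of the big ones, form a set `Z` of at most `z` vertices. A branch set meeting `P` but not `Z`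
has few neighbouring branch sets.
-/

set_option autoImplicit false
set_option linter.unusedSectionVars false

namespace Pool.Agent.Results.MP_271714_co.PolynomialExpansion

open Pool.Agent.Q277.RB Finset

/-- `S` is a model of `H` in `G` of depth `r`: pairwise disjoint vertex sets, connected and of radius
at most `r`, joined by edges as prescribed by `H` -/
structure IsModel {V W : Type} (G : SimpleGraph V) (r : ℕ) (H : SimpleGraph W)
    (S : W → Set V) : Prop where
  disj : ∀ a b, a ≠ b → Disjoint (S a) (S b)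
  rad : ∀ a, ∃ c ∈ S a, ∀ x ∈ S a, ∃ w : G.Walk c x, w.length ≤ r ∧ ∀ y ∈ w.support, y ∈ S a
  adj : ∀ a b, H.Adj a b → ∃ x ∈ S a, ∃ y ∈ S b, G.Adj x y

/-- `H` is an `r`-shallow minor of `G` -/
def IsShallowMinor {V W : Type} (r : ℕ) (H : SimpleGraph W) (G : SimpleGraph V) : Prop :=
  ∃ S : W → Set V, IsModel G r H S

section Core

variable {V W : Type} [Fintype V] [Fintype W]

/-- number of classes that are close -/
def AA (k r : ℕ) : ℕ := 2 * (k * (2 * r + 1)) + 1

/-- degree bound -/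
def DD (k t r : ℕ) : ℕ := t * AA k r + AA k r * (3 * (t * AA k r + 1))

open Classical in
/-- branch sets in `U` meeting the class of `x` -/
noncomputable def hits (S : W → Set V) (U : Finset W) (s : Setoid V) (x : V) : Finset W :=
  U.filter (fun h => ∃ y ∈ S h, s.r x y)

theorem mem_hits (S : W → Set V) (U : Finset W) (s : Setoid V) (x : V) (h : W) :
    h ∈ hits S U s x ↔ h ∈ U ∧ ∃ y ∈ S h, s.r x y := by
  simp [hits]

/-- few branch sets meet a small set -/
theorem card_meet (S : W → Set V) (hdis : ∀ a b, a ≠ b → Disjoint (S a) (S b)) (J : Finset W)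
    (Z : Finset V) (h : ∀ a ∈ J, ∃ x ∈ Z, x ∈ S a) : J.card ≤ Z.card := by
  classical
  rcases isEmpty_or_nonempty V with hV | hV
  · have : J = ∅ := by
      rw [Finset.eq_empty_iff_forall_notMem]
      intro a ha
      obtain ⟨x, -, -⟩ := h a ha
      exact hV.elim x
    rw [this]; simp
  choose! f hf using h
  apply Finset.card_le_card_of_injOn f
  · intro a ha
    exact (hf a ha).1
  · intro a ha b hb hab
    by_contra hne
    have h1 := (hf a ha).2
    have h2 := (hf b hb).2
    rw [hab] at h1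
    exact Set.disjoint_left.1 (hdis a b hne) h1 h2

theorem core (G : SimpleGraph V) (k t r : ℕ) (ht : 1 ≤ t) (hG : ReducedBandwidthLE G k)
    (hK : ∀ X Y : Finset V, (∀ x ∈ X, ∀ y ∈ Y, G.Adj x y) → X.card < t ∨ Y.card < t)
    (H : SimpleGraph W) (S : W → Set V) (hS : IsModel G r H S) (U : Finset W)
    (hU : U.Nonempty) : ∃ h ∈ U, {h' | h' ∈ U ∧ H.Adj h h'}.ncard ≤ DD k t r := by
  classical
  obtain ⟨A, hA⟩ : ∃ A, A = AA k r := ⟨_, rfl⟩
  have hA1 : 1 ≤ A := by rw [hA]; unfold AA; omega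
  obtain ⟨z, hz⟩ : ∃ z, z = t * A := ⟨_, rfl⟩
  have hz1 : 1 ≤ z := by rw [hz]; exact Nat.mul_pos ht hA1
  have hD : DD k t r = z + A * (3 * (z + 1)) := by
    unfold DD; rw [← hA, ← hz]
  by_cases hsmall : U.card < z + 1
  · obtain ⟨h, hh⟩ := hU
    refine ⟨h, hh, ?_⟩
    have hsub : {h' | h' ∈ U ∧ H.Adj h h'} ⊆ (U : Set W) := fun x hx => hx.1
    have h1 := Set.ncard_le_ncard hsub (Finset.finite_toSet U)
    rw [Set.ncard_coe_finset] at h1
    rw [hD]
    omega
  rw [not_lt] at hsmall
  obtain ⟨N, p, ⟨hp0, hpN, hpm⟩, hbw⟩ := hG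
  have hex : ∃ i, ∃ x, z + 1 ≤ (hits S U (p i) x).card := by
    obtain ⟨h, hh⟩ := hU
    obtain ⟨c, hc, -⟩ := hS.rad h
    refine ⟨N, c, hsmall.trans (Finset.card_le_card ?_)⟩
    intro h' hh'
    rw [mem_hits]
    obtain ⟨c', hc', -⟩ := hS.rad h'
    refine ⟨hh', c', hc', ?_⟩
    rw [hpN]
    trivial
  obtain ⟨x0, hx0⟩ := Nat.find_spec hex
  set i0 := Nat.find hex with hi0
  have hpos : i0 ≠ 0 := by
    intro h0
    rw [h0, hp0] at hx0
    have : (hits S U ⊥ x0).card ≤ 1 := by
      rw [Finset.card_le_one]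
      intro a ha b hb
      rw [mem_hits] at ha hb
      obtain ⟨-, y, hy, hxy⟩ := ha
      obtain ⟨-, y', hy', hxy'⟩ := hb
      have e1 : x0 = y := hxy
      have e2 : x0 = y' := hxy'
      by_contra hne
      subst e1
      subst e2
      exact Set.disjoint_left.1 (hS.disj a b hne) hy hy'
    omega
  obtain ⟨i, hi⟩ : ∃ i, i0 = i + 1 := ⟨i0 - 1, by omega⟩
  have hiN : i0 ≤ N := by
    apply Nat.find_min' hex
    obtain ⟨h, hh⟩ := hU
    obtain ⟨c, hc, -⟩ := hS.rad h
    refine ⟨c, hsmall.trans (Finset.card_le_card ?_)⟩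
    intro h' hh'
    rw [mem_hits]
    obtain ⟨c', hc', -⟩ := hS.rad h'
    refine ⟨hh', c', hc', ?_⟩
    rw [hpN]
    trivial
  have hprev : ∀ x, (hits S U (p i) x).card ≤ z := by
    intro x
    by_contra hcon
    rw [not_le] at hcon
    exact Nat.find_min hex (by omega : i < Nat.find hex) ⟨x, hcon⟩
  obtain ⟨u, v, -, hm⟩ := hpm i (by omega)
  rw [hi] at hx0
  obtain ⟨s, hs⟩ : ∃ s, s = p (i + 1) := ⟨_, rfl⟩
  rw [← hs] at hx0 hm
  have hhits : ∀ x, (hits S U s x).card ≤ 3 * (z + 1) := by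
    intro x
    have hsub : hits S U s x ⊆ hits S U (p i) x ∪ (hits S U (p i) u ∪ hits S U (p i) v) := by
      intro h hh
      rw [mem_hits] at hh
      obtain ⟨hhU, y, hy, hxy⟩ := hh
      rw [Finset.mem_union, Finset.mem_union, mem_hits, mem_hits, mem_hits]
      rcases (hm x y).1 hxy with h1 | ⟨-, h1⟩ | ⟨-, h1⟩
      · exact Or.inl ⟨hhU, y, hy, h1⟩
      · exact Or.inr (Or.inr ⟨hhU, y, hy, (p i).symm h1⟩)
      · exact Or.inr (Or.inl ⟨hhU, y, hy, (p i).symm h1⟩)
    have h1 := Finset.card_le_card hsub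
    have h2 := Finset.card_union_le (hits S U (p i) x) (hits S U (p i) u ∪ hits S U (p i) v)
    have h3 := Finset.card_union_le (hits S U (p i) u) (hits S U (p i) v)
    have := hprev x
    have := hprev u
    have := hprev v
    omega
  have hbws := hbw (i + 1) (by omega)
  rw [← hs] at hbws
  obtain ⟨σ, hσ, hσk⟩ := hbws.abs
  set P0 : Quotient s := Quotient.mk s x0 with hP0
  obtain ⟨hfin, hcardB⟩ := card_close σ hσ P0 (k * (2 * r + 1))
  have hcardB' : hfin.toFinset.card ≤ A := by
    rw [← Set.ncard_eq_toFinset_card _ hfin, hA]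
    exact hcardB
  set BF : Finset (Quotient s) := hfin.toFinset with hBF
  have memBF : ∀ Q, Q ∈ BF ↔ |σ Q - σ P0| ≤ ((k * (2 * r + 1) : ℕ) : ℤ) := by
    intro Q
    rw [hBF, Set.Finite.mem_toFinset]
    rfl
  -- classes and vertices complete to them
  let cls : Quotient s → Finset V := fun Q => univ.filter (fun v => Quotient.mk s v = Q)
  let blk : Quotient s → Finset V := fun Q => univ.filter (fun v => ∀ x ∈ cls Q, G.Adj x v)
  let zone : Quotient s → Finset V := fun Q => if (cls Q).card < t then cls Q else blk Q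
  have hzone : ∀ Q, (zone Q).card ≤ t := by
    intro Q
    by_cases hQ : (cls Q).card < t
    · simp only [zone, if_pos hQ]; exact hQ.le
    · simp only [zone, if_neg hQ]
      rcases hK (cls Q) (blk Q) (by
        intro x hx y hy
        exact (Finset.mem_filter.1 hy).2 x hx) with h | h
      · exact absurd h hQ
      · exact h.le
  set Z : Finset V := BF.biUnion zone with hZ
  have hZc : Z.card ≤ z := by
    calc Z.card ≤ ∑ Q ∈ BF, (zone Q).card := Finset.card_biUnion_le
      _ ≤ ∑ Q ∈ BF, t := Finset.sum_le_sum (fun Q _ => hzone Q)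
      _ = BF.card * t := by rw [Finset.sum_const, smul_eq_mul]
      _ ≤ A * t := Nat.mul_le_mul_right _ hcardB'
      _ = z := by rw [hz, Nat.mul_comm]
  -- a branch set avoiding `Z`
  have hexh : ∃ h ∈ hits S U s x0, ∀ x ∈ S h, x ∉ Z := by
    by_contra hcon
    push Not at hcon
    have := card_meet S hS.disj (hits S U s x0) Z (fun a ha => by
      obtain ⟨x, hx, hxZ⟩ := hcon a ha
      exact ⟨x, hxZ, hx⟩)
    omega
  obtain ⟨h, hh, hhZ⟩ := hexh
  rw [mem_hits] at hh
  obtain ⟨hhU, x, hxS, hx0x⟩ := hh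
  have hxP : Quotient.mk s x = P0 := Quotient.sound (s.symm hx0x)
  -- the step
  have step : ∀ (a a' : V) (j : ℕ), a ∉ Z → a' ∉ Z → G.Adj a a' → j ≤ 2 * r →
      |σ (Quotient.mk s a) - σ P0| ≤ ((k * j : ℕ) : ℤ) →
      |σ (Quotient.mk s a') - σ P0| ≤ ((k * (j + 1) : ℕ) : ℤ) := by
    intro a a' j ha ha' hadj hj hσa
    have hkj : ((k * j : ℕ) : ℤ) ≤ ((k * (j + 1) : ℕ) : ℤ) := by
      exact_mod_cast Nat.mul_le_mul_left k (Nat.le_succ j)
    by_cases heq : Quotient.mk s a = Quotient.mk s a'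
    · rw [← heq]
      exact hσa.trans hkj
    by_cases hred : (redGraph G s).Adj (Quotient.mk s a) (Quotient.mk s a')
    · have h1 := hσk _ _ hred
      have h2 : |σ (Quotient.mk s a') - σ P0| ≤
          |σ (Quotient.mk s a) - σ (Quotient.mk s a')| + |σ (Quotient.mk s a) - σ P0| := by
        rw [abs_sub_comm (σ (Quotient.mk s a)) (σ (Quotient.mk s a'))]
        exact abs_sub_le _ _ _
      have h3 : ((k * (j + 1) : ℕ) : ℤ) = (k : ℤ) + ((k * j : ℕ) : ℤ) := by
        push_cast; ring
      rw [h3]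
      linarith
    · exfalso
      have haB : Quotient.mk s a ∈ BF := by
        rw [memBF]
        refine hσa.trans ?_
        exact_mod_cast Nat.mul_le_mul_left k (by omega : j ≤ 2 * r + 1)
      have hbig : ¬ (cls (Quotient.mk s a)).card < t := by
        intro hlt
        apply ha
        rw [hZ, Finset.mem_biUnion]
        refine ⟨_, haB, ?_⟩
        simp only [zone, if_pos hlt]
        exact Finset.mem_filter.2 ⟨Finset.mem_univ _, rfl⟩
      apply ha'
      rw [hZ, Finset.mem_biUnion]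
      refine ⟨_, haB, ?_⟩
      simp only [zone, if_neg hbig]
      refine Finset.mem_filter.2 ⟨Finset.mem_univ _, ?_⟩
      intro b hb
      rw [Finset.mem_filter] at hb
      by_contra hnadj
      exact hred ⟨heq, ⟨a, a', rfl, rfl, hadj⟩, ⟨b, a', hb.2, rfl, hnadj⟩⟩
  have walk : ∀ (a b : V) (w : G.Walk a b) (j : ℕ), (∀ y ∈ w.support, y ∈ S h) →
      j + w.length ≤ 2 * r + 1 → |σ (Quotient.mk s a) - σ P0| ≤ ((k * j : ℕ) : ℤ) →
      |σ (Quotient.mk s b) - σ P0| ≤ ((k * (j + w.length) : ℕ) : ℤ) := by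
    intro a b w
    induction w with
    | nil => intro j _ _ h1; simpa using h1
    | @cons a a' b hadj w ih =>
      intro j hsup hlen h1
      rw [SimpleGraph.Walk.length_cons] at hlen ⊢
      have ha : a ∈ S h := hsup a (SimpleGraph.Walk.start_mem_support _)
      have ha' : a' ∈ S h := hsup a' (by
        rw [SimpleGraph.Walk.support_cons]
        exact List.mem_cons_of_mem _ (SimpleGraph.Walk.start_mem_support _))
      have h2 := step a a' j (hhZ a ha) (hhZ a' ha') hadj (by omega) h1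
      have h3 := ih (j + 1) (fun y hy => hsup y (by
        rw [SimpleGraph.Walk.support_cons]
        exact List.mem_cons_of_mem _ hy)) (by omega) h2
      rw [show j + (w.length + 1) = j + 1 + w.length by omega]
      exact h3
  have hSh : ∀ y ∈ S h, |σ (Quotient.mk s y) - σ P0| ≤ ((k * (2 * r) : ℕ) : ℤ) := by
    intro y hy
    obtain ⟨c, hc, hrad⟩ := hS.rad h
    obtain ⟨w1, hw1, hs1⟩ := hrad x hxS
    obtain ⟨w2, hw2, hs2⟩ := hrad y hy
    have h1 := walk x y (w1.reverse.append w2) 0 (by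
      intro v hv
      rw [SimpleGraph.Walk.mem_support_append_iff, SimpleGraph.Walk.support_reverse,
        List.mem_reverse] at hv
      rcases hv with hv | hv
      · exact hs1 v hv
      · exact hs2 v hv) (by
        rw [SimpleGraph.Walk.length_append, SimpleGraph.Walk.length_reverse]; omega) (by
        rw [hxP]; simp)
    refine h1.trans ?_
    rw [SimpleGraph.Walk.length_append, SimpleGraph.Walk.length_reverse]
    exact_mod_cast Nat.mul_le_mul_left k (by omega)
  refine ⟨h, hhU, ?_⟩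
  -- neighbours
  have hsub : {h' | h' ∈ U ∧ H.Adj h h'} ⊆
      (((U.filter (fun h' => ∃ y ∈ Z, y ∈ S h')) ∪
        BF.biUnion (fun Q => U.filter (fun h' => ∃ y ∈ S h', Quotient.mk s y = Q)) : Finset W) :
        Set W) := by
    rintro h' ⟨hh'U, hadj⟩
    rw [Finset.mem_coe, Finset.mem_union, Finset.mem_filter, Finset.mem_biUnion]
    obtain ⟨a, ha, a', ha', haa⟩ := hS.adj h h' hadj
    by_cases haZ : a' ∈ Z
    · exact Or.inl ⟨hh'U, a', haZ, ha'⟩
    · right
      have := step a a' (2 * r) (hhZ a ha) haZ haa le_rfl (hSh a ha)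
      exact ⟨Quotient.mk s a', (memBF _).2 this, Finset.mem_filter.2 ⟨hh'U, a', ha', rfl⟩⟩
  have h1 := Set.ncard_le_ncard hsub (Finset.finite_toSet _)
  rw [Set.ncard_coe_finset] at h1
  have h2 : (U.filter (fun h' => ∃ y ∈ Z, y ∈ S h')).card ≤ z :=
    (card_meet S hS.disj _ Z (fun a ha => (Finset.mem_filter.1 ha).2)).trans hZc
  have h3 : (BF.biUnion (fun Q => U.filter (fun h' => ∃ y ∈ S h', Quotient.mk s y = Q))).card ≤
      A * (3 * (z + 1)) := by
    calc _ ≤ ∑ Q ∈ BF, (U.filter (fun h' => ∃ y ∈ S h', Quotient.mk s y = Q)).card :=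
          Finset.card_biUnion_le
      _ ≤ ∑ Q ∈ BF, 3 * (z + 1) := by
          apply Finset.sum_le_sum
          intro Q _
          obtain ⟨v0, rfl⟩ := Quotient.exists_rep Q
          refine le_trans (Finset.card_le_card ?_) (hhits v0)
          intro h' hh'
          rw [Finset.mem_filter] at hh'
          rw [mem_hits]
          obtain ⟨hU', y, hy, hyq⟩ := hh'
          exact ⟨hU', y, hy, s.symm (Quotient.exact hyq)⟩
      _ = BF.card * (3 * (z + 1)) := by rw [Finset.sum_const, smul_eq_mul]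
      _ ≤ A * (3 * (z + 1)) := Nat.mul_le_mul_right _ hcardB'
  have h4 := Finset.card_union_le (U.filter (fun h' => ∃ y ∈ Z, y ∈ S h'))
    (BF.biUnion (fun Q => U.filter (fun h' => ∃ y ∈ S h', Quotient.mk s y = Q)))
  rw [hD]
  omega

theorem edges_le (H : SimpleGraph W) (D : ℕ)
    (hdeg : ∀ U : Finset W, U.Nonempty → ∃ h ∈ U, {h' | h' ∈ U ∧ H.Adj h h'}.ncard ≤ D)
    (U : Finset W) : {e | e ∈ H.edgeSet ∧ ∀ x ∈ e, x ∈ U}.ncard ≤ D * U.card := by
  classical
  induction U using Finset.strongInduction with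
  | H U ih =>
  rcases U.eq_empty_or_nonempty with rfl | hU
  · have : {e | e ∈ H.edgeSet ∧ ∀ x ∈ e, x ∈ (∅ : Finset W)} = ∅ := by
      ext e
      simp only [Set.mem_ofPred_eq, Set.mem_empty_iff_false, iff_false]
      rintro ⟨-, h⟩
      induction e using Sym2.ind with
      | _ a b => exact absurd (h a (Sym2.mem_mk_left _ _)) (Finset.notMem_empty _)
    rw [this]; simp
  · obtain ⟨h, hh, hd⟩ := hdeg U hU
    have hsub : {e | e ∈ H.edgeSet ∧ ∀ x ∈ e, x ∈ U} ⊆
        {e | e ∈ H.edgeSet ∧ ∀ x ∈ e, x ∈ U.erase h} ∪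
          (fun h' => s(h, h')) '' {h' | h' ∈ U ∧ H.Adj h h'} := by
      rintro e ⟨he, hx⟩
      by_cases hhe : h ∈ e
      · right
        obtain ⟨b, rfl⟩ := hhe
        exact ⟨b, ⟨hx b (Sym2.mem_mk_right _ _), he⟩, rfl⟩
      · left
        refine ⟨he, fun x hxe => Finset.mem_erase.2 ⟨?_, hx x hxe⟩⟩
        rintro rfl
        exact hhe hxe
    have h1 := Set.ncard_le_ncard hsub (Set.toFinite _)
    have h2 := Set.ncard_union_le {e | e ∈ H.edgeSet ∧ ∀ x ∈ e, x ∈ U.erase h}
      ((fun h' => s(h, h')) '' {h' | h' ∈ U ∧ H.Adj h h'})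
    have h3 := Set.ncard_image_le (f := fun h' => s(h, h'))
      (Set.toFinite {h' | h' ∈ U ∧ H.Adj h h'})
    have h4 := ih (U.erase h) (Finset.erase_ssubset hh)
    rw [Finset.card_erase_of_mem hh] at h4
    have h5 : 0 < U.card := Finset.card_pos.2 ⟨h, hh⟩
    have h6 : D * U.card = D * (U.card - 1) + D := by
      obtain ⟨m, hm⟩ : ∃ m, U.card = m + 1 := ⟨U.card - 1, by omega⟩
      rw [hm, Nat.add_sub_cancel, Nat.mul_succ]
    omega

theorem main (G : SimpleGraph V) (k t r : ℕ) (ht : 1 ≤ t) (hG : ReducedBandwidthLE G k)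
    (hK : ∀ X Y : Finset V, (∀ x ∈ X, ∀ y ∈ Y, G.Adj x y) → X.card < t ∨ Y.card < t)
    (H : SimpleGraph W) (hH : IsShallowMinor r H G) :
    H.edgeSet.ncard ≤ DD k t r * Fintype.card W := by
  classical
  obtain ⟨S, hS⟩ := hH
  have h1 := edges_le H (DD k t r) (fun U hU => core G k t r ht hG hK H S hS U hU) univ
  have h2 : {e | e ∈ H.edgeSet ∧ ∀ x ∈ e, x ∈ (univ : Finset W)} = H.edgeSet := by
    ext e; simp
  rw [h2, Finset.card_univ] at h1
  exact h1

end Core

theorem DD_le (k t r : ℕ) : DD k t r ≤ (4 * t + 3) * (4 * k + 1) ^ 2 * (r + 1) ^ 2 := by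
  have h1 : AA k r ≤ (4 * k + 1) * (r + 1) := by unfold AA; nlinarith
  have h0 : 1 ≤ AA k r := by unfold AA; omega
  have h2 : AA k r * AA k r ≤ ((4 * k + 1) * (r + 1)) * ((4 * k + 1) * (r + 1)) :=
    Nat.mul_le_mul h1 h1
  have h3 : AA k r ≤ AA k r * AA k r := Nat.le_mul_of_pos_left _ h0
  have h4 : DD k t r ≤ (4 * t + 3) * (AA k r * AA k r) := by
    unfold DD
    have h5 : t * AA k r ≤ t * (AA k r * AA k r) := Nat.mul_le_mul_left t h3
    nlinarith
  calc DD k t r ≤ (4 * t + 3) * (AA k r * AA k r) := h4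
    _ ≤ (4 * t + 3) * (((4 * k + 1) * (r + 1)) * ((4 * k + 1) * (r + 1))) :=
        Nat.mul_le_mul_left _ h2
    _ = (4 * t + 3) * (4 * k + 1) ^ 2 * (r + 1) ^ 2 := by ring

/-- a graph without a subgraph `K_{s,t}` -/
theorem no_biclique {V : Type} [Fintype V] (G : SimpleGraph V) (s t : ℕ)
    (h : (completeBipartiteGraph (Fin s) (Fin t)).Free G) (X Y : Finset V)
    (hXY : ∀ x ∈ X, ∀ y ∈ Y, G.Adj x y) : X.card < max s t ∨ Y.card < max s t := by
  classical
  by_contra hcon
  push Not at hcon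
  obtain ⟨hX, hY⟩ := hcon
  obtain ⟨f⟩ : Nonempty (Fin s ↪ X) := Function.Embedding.nonempty_of_card_le (by
    simp only [Fintype.card_fin, Fintype.card_coe]; exact (le_max_left _ _).trans hX)
  obtain ⟨g⟩ : Nonempty (Fin t ↪ Y) := Function.Embedding.nonempty_of_card_le (by
    simp only [Fintype.card_fin, Fintype.card_coe]; exact (le_max_right _ _).trans hY)
  apply h
  refine ⟨⟨⟨Sum.elim (fun i => (f i : V)) (fun j => (g j : V)), ?_⟩, ?_⟩⟩
  · rintro (i | i) (j | j) hij
    · simp at hij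
    · exact hXY _ (f i).2 _ (g j).2
    · exact (hXY _ (f j).2 _ (g i).2).symm
    · simp at hij
  · rintro (i | i) (j | j) hij
    · congr 1
      exact f.injective (Subtype.ext hij)
    · have h1 : (f i : V) = (g j : V) := hij
      exact absurd h1 (hXY _ (f i).2 _ (g j).2).ne
    · have h1 : (g i : V) = (f j : V) := hij
      exact absurd h1 (hXY _ (f j).2 _ (g i).2).ne'
    · congr 1
      exact g.injective (Subtype.ext hij)

/-- Each class of finite graphs that excludes some `K_{s,t}` as a subgraph and has bounded reduced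
bandwidth has polynomial expansion: for some `c`, every `r`-shallow minor `H` of a graph of the class
has at most `c (r + 1)² |V(H)|` edges. In particular this holds for all monotone such classes. -/
theorem result (C : (n : ℕ) → SimpleGraph (Fin n) → Prop)
    (h1 : ∃ s t : ℕ, 1 ≤ s ∧ 1 ≤ t ∧ ∀ (n : ℕ) (G : SimpleGraph (Fin n)), C n G →
      (completeBipartiteGraph (Fin s) (Fin t)).Free G)
    (h2 : ∃ k : ℕ, ∀ (n : ℕ) (G : SimpleGraph (Fin n)), C n G → ReducedBandwidthLE G k) :
    ∃ c : ℕ, ∀ (r n : ℕ) (G : SimpleGraph (Fin n)), C n G →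
      ∀ (m : ℕ) (H : SimpleGraph (Fin m)), IsShallowMinor r H G →
        H.edgeSet.ncard ≤ c * (r + 1) ^ 2 * m := by
  obtain ⟨s, t, hs, ht, hfree⟩ := h1
  obtain ⟨k, hk⟩ := h2
  refine ⟨(4 * max s t + 3) * (4 * k + 1) ^ 2, ?_⟩
  intro r n G hG m H hH
  have h3 := main G k (max s t) r (hs.trans (le_max_left _ _)) (hk n G hG)
    (no_biclique G s t (hfree n G hG)) H hH
  rw [Fintype.card_fin] at h3
  exact h3.trans (Nat.mul_le_mul_right m (DD_le k (max s t) r))

end Pool.Agent.Results.MP_271714_co.PolynomialExpansion
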